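import Mathlib

/-!
# Wrapping a cube with a rectangular sheet of paper (MP_dba4bb_co): definitions
-/

namespace Pool.Agent.Helper808.Cube

/-- The sheet of paper `[0,x] × [0,y]` in the Euclidean plane. -/
def paper (x y : ℝ) : Set (EuclideanSpace ℝ (Fin 2)) :=
  {p | 0 ≤ p 0 ∧ p 0 ≤ x ∧ 0 ≤ p 1 ∧ p 1 ≤ y}

/-- The boundary surface of the cube `[0,s]³` of side `s` in Euclidean 3-space. -/
def cubeSurface (s : ℝ) : Set (EuclideanSpace ℝ (Fin 3)) :=
  {q | (∀ i, 0 ≤ q i ∧ q i ≤ s) ∧ ∃ i, q i = 0 ∨ q i = s}

/-- `f` is the map underlying a folding of the `x × y` sheet that wraps the cube of side `s`: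
it is continuous on the sheet, its image is the whole surface of the cube, and the sheet is a
union of finitely many closed pieces (the faces of the crease pattern) on each of which `f` is
isometric.  (No layer ordering is asked for, and the pieces need not be polygons, so this class
of maps contains the maps of all folded states.) -/
structure Wraps (x y s : ℝ) (f : EuclideanSpace ℝ (Fin 2) → EuclideanSpace ℝ (Fin 3)) :
    Prop where
  cont : ContinuousOn f (paper x y)
  onto : f '' paper x y = cubeSurface s
  creases : ∃ F : Set (Set (EuclideanSpace ℝ (Fin 2))), F.Finite ∧ paper x y = ⋃₀ F ∧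
    ∀ P ∈ F, IsClosed P ∧ ∀ a ∈ P, ∀ b ∈ P, dist (f a) (f b) = dist a b

/-- The supremum of the sides of cubes wrapped by the `1 × r` sheet, in the class `Wraps`. -/
noncomputable def sigma (r : ℝ) : ℝ := sSup {s : ℝ | 0 < s ∧ ∃ f, Wraps 1 r s f}

end Pool.Agent.Helper808.Cube
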