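import Mathlib
import Pool.Agent.Helper808.Cube.Defs

/-!
# Wrapping a cube with a rectangular sheet of paper (MP_dba4bb_co): proofs
-/

set_option autoImplicit false

open Set Filter Topology

namespace Pool.Agent.Helper808.Cube


namespace JInd

theorem ind (φ : ℝ → ℝ) (c : ℝ) (hφ : ContinuousOn φ (Icc (0:ℝ) 1)) (h0 : φ 0 ≤ 0)
    (hloc : ∀ t ∈ Ico (0:ℝ) 1, ∀ᶠ u in 𝓝[>] t, u ≤ 1 → φ u - φ t ≤ c * (u - t)) :
    φ 1 ≤ c := by
  have key : Icc (0:ℝ) 1 ⊆ {x | φ x ≤ c * x} := by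
    have A : ContinuousOn (fun x => (φ x, c * x)) (Icc (0:ℝ) 1) :=
      hφ.prodMk (by fun_prop)
    have hcl : IsClosed ({x | φ x ≤ c * x} ∩ Icc (0:ℝ) 1) := by
      rw [inter_comm]
      exact A.preimage_isClosed_of_isClosed isClosed_Icc OrderClosedTopology.isClosed_le'
    apply hcl.Icc_subset_of_forall_exists_gt
    · simpa using h0
    · rintro x ⟨hx, hx01⟩ y hy
      have h1 := hloc x hx01
      have h2 : ∀ᶠ u in 𝓝[>] x, u ∈ Ioc x (min y 1) :=
        Ioc_mem_nhdsGT (lt_min hy hx01.2)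
      obtain ⟨u, hu1, hu2⟩ := (h1.and h2).exists
      have hx' : φ x ≤ c * x := hx
      have hu3 := hu1 (le_trans hu2.2 (min_le_right _ _))
      refine ⟨u, ?_, hu2.1, le_trans hu2.2 (min_le_left _ _)⟩
      show φ u ≤ c * u
      nlinarith
  have := key (show (1:ℝ) ∈ Icc (0:ℝ) 1 from ⟨zero_le_one, le_refl _⟩)
  simpa using this

end JInd


namespace JPiece

theorem samePiece {X : Type*} [TopologicalSpace X] {F : Set (Set X)} (hF : F.Finite)
    (hcl : ∀ P ∈ F, IsClosed P) (z : ℝ → X) (hz : Continuous z) (t : ℝ)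
    (hcov : ∀ u ∈ Icc (0:ℝ) 1, z u ∈ ⋃₀ F) :
    ∀ᶠ u in 𝓝[>] t, u ∈ Icc (0:ℝ) 1 → ∃ P ∈ F, z t ∈ P ∧ z u ∈ P := by
  have h1 : ∀ P ∈ F, ∀ᶠ u in 𝓝 t, z t ∉ P → z u ∉ P := by
    intro P hP
    by_cases h : z t ∈ P
    · exact Filter.Eventually.of_forall (fun u hu => absurd h hu)
    · have h2 : Pᶜ ∈ 𝓝 (z t) := (hcl P hP).isOpen_compl.mem_nhds h
      have h3 := hz.continuousAt h2
      filter_upwards [h3] with u hu _
      exact hu
  have h2 : ∀ᶠ u in 𝓝 t, ∀ P ∈ F, z t ∉ P → z u ∉ P :=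
    (Filter.eventually_all_finite hF).mpr h1
  have h3 : ∀ᶠ u in 𝓝[>] t, ∀ P ∈ F, z t ∉ P → z u ∉ P := h2.filter_mono nhdsWithin_le_nhds
  filter_upwards [h3] with u hu hu1
  obtain ⟨P, hP, hzu⟩ := hcov u hu1
  refine ⟨P, hP, ?_, hzu⟩
  by_contra hne
  exact hu P hP hne hzu

end JPiece


namespace JNonexp

theorem nonexp
    (ind : ∀ (φ : ℝ → ℝ) (c : ℝ), ContinuousOn φ (Icc (0:ℝ) 1) → φ 0 ≤ 0 →
      (∀ t ∈ Ico (0:ℝ) 1, ∀ᶠ u in 𝓝[>] t, u ≤ 1 → φ u - φ t ≤ c * (u - t)) → φ 1 ≤ c)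
    (samePiece : ∀ (F : Set (Set (EuclideanSpace ℝ (Fin 2)))), F.Finite →
      (∀ P ∈ F, IsClosed P) → ∀ (z : ℝ → EuclideanSpace ℝ (Fin 2)), Continuous z → ∀ (t : ℝ),
      (∀ u ∈ Icc (0:ℝ) 1, z u ∈ ⋃₀ F) →
      ∀ᶠ u in 𝓝[>] t, u ∈ Icc (0:ℝ) 1 → ∃ P ∈ F, z t ∈ P ∧ z u ∈ P)
    {x y s : ℝ} {f : EuclideanSpace ℝ (Fin 2) → EuclideanSpace ℝ (Fin 3)}
    (h : Wraps x y s f) (a : EuclideanSpace ℝ (Fin 2)) (ha : a ∈ paper x y)
    (b : EuclideanSpace ℝ (Fin 2)) (hb : b ∈ paper x y) : dist (f a) (f b) ≤ dist a b := by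
  let z : ℝ → EuclideanSpace ℝ (Fin 2) := fun t => a + t • (b - a)
  have hzc : Continuous z := by fun_prop
  have hz0 : z 0 = a := by simp [z]
  have hz1 : z 1 = b := by simp [z]
  have hzp : ∀ t ∈ Icc (0:ℝ) 1, z t ∈ paper x y := by
    intro t ht
    obtain ⟨h0, h1⟩ := ht
    obtain ⟨a1, a2, a3, a4⟩ := ha
    obtain ⟨b1, b2, b3, b4⟩ := hb
    have e : ∀ i, z t i = (1 - t) * a i + t * b i := by
      intro i
      simp only [z, PiLp.add_apply, PiLp.smul_apply, PiLp.sub_apply, smul_eq_mul]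
      ring
    have h1' : 0 ≤ 1 - t := by linarith
    refine ⟨?_, ?_, ?_, ?_⟩
    · rw [e]; positivity
    · rw [e]
      have := mul_le_mul_of_nonneg_left a2 h1'
      have := mul_le_mul_of_nonneg_left b2 h0
      nlinarith
    · rw [e]; positivity
    · rw [e]
      have := mul_le_mul_of_nonneg_left a4 h1'
      have := mul_le_mul_of_nonneg_left b4 h0
      nlinarith
  have hdist : ∀ t u, t ≤ u → dist (z t) (z u) = dist a b * (u - t) := by
    intro t u htu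
    have e : z t - z u = (t - u) • (b - a) := by
      simp only [z]
      rw [sub_smul]
      abel
    rw [dist_eq_norm, e, norm_smul, Real.norm_eq_abs, abs_of_nonpos (by linarith),
      dist_comm a b, dist_eq_norm b a]
    ring
  obtain ⟨F, hfin, hcov, hF⟩ := h.creases
  have hall : ∀ u ∈ Icc (0:ℝ) 1, z u ∈ ⋃₀ F := by
    intro u hu
    rw [← hcov]
    exact hzp u hu
  have key := ind (fun t => dist (f a) (f (z t))) (dist a b) ?_ ?_ ?_
  · simp only [hz1] at key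
    exact key
  · have h1 : ContinuousOn (fun t => f (z t)) (Icc (0:ℝ) 1) := h.cont.comp hzc.continuousOn hzp
    intro t ht
    exact Filter.Tendsto.dist tendsto_const_nhds (h1 t ht)
  · simp only [hz0, dist_self]
    exact le_rfl
  · intro t ht
    have hs := samePiece F hfin (fun P hP => (hF P hP).1) z hzc t hall
    filter_upwards [hs, self_mem_nhdsWithin] with u hu htu hu1
    have htu' : t < u := htu
    obtain ⟨P, hP, hPt, hPu⟩ := hu ⟨by linarith [ht.1], hu1⟩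
    have h1 := (hF P hP).2 (z t) hPt (z u) hPu
    have h2 := dist_triangle (f a) (f (z t)) (f (z u))
    rw [h1, hdist t u htu'.le] at h2
    linarith

end JNonexp


namespace JLocal

theorem curveLocal (w : ℝ → Fin 3 → ℝ) (K h : ℝ) (hh : 0 < h) (hK : 0 ≤ K)
    (hlip : ∀ t ∈ Icc (0:ℝ) 1, ∀ u ∈ Icc (0:ℝ) 1, ∑ i, (w u i - w t i) ^ 2 ≤ (K * (u - t)) ^ 2)
    (hsurf : ∀ t ∈ Icc (0:ℝ) 1, ∃ i, |w t i| = h)
    (A : Finset (Fin 3)) (hA : ∀ i, i ∈ A ↔ ∃ t ∈ Icc (0:ℝ) 1, |w t i| = h)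
    (t : ℝ) (ht : t ∈ Ico (0:ℝ) 1) :
    ∀ᶠ u in 𝓝[>] t, u ≤ 1 →
      ∑ i ∈ A, |w u i - w t i| ≤ Real.sqrt ((A.card : ℝ) - 1) * K * (u - t) := by
  have ht' : t ∈ Icc (0:ℝ) 1 := ⟨ht.1, ht.2.le⟩
  have habs : ∀ u ∈ Icc (0:ℝ) 1, t ≤ u → ∀ i, |w u i - w t i| ≤ K * (u - t) := by
    intro u hu htu i
    have h1 := hlip t ht' u hu
    have h2 : (w u i - w t i) ^ 2 ≤ ∑ i, (w u i - w t i) ^ 2 :=
      Finset.single_le_sum (f := fun i => (w u i - w t i) ^ 2) (fun i _ => sq_nonneg _)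
        (Finset.mem_univ i)
    have h3 : 0 ≤ K * (u - t) := mul_nonneg hK (by linarith)
    exact abs_le_of_sq_le_sq (h2.trans h1) h3
  let g : Fin 3 → ℝ := fun i => if |w t i| = h then h else |(|w t i| - h)|
  have hg : ∀ i, 0 < g i := by
    intro i
    simp only [g]
    split_ifs with h1
    · exact hh
    · exact abs_pos.mpr (sub_ne_zero.mpr h1)
  have htend : Tendsto (fun u => K * (u - t)) (𝓝[>] t) (𝓝 0) := by
    have h1 : Tendsto (fun u => K * (u - t)) (𝓝 t) (𝓝 (K * (t - t))) :=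
      (continuous_const.mul (continuous_id.sub continuous_const)).tendsto t
    rw [sub_self, mul_zero] at h1
    exact h1.mono_left nhdsWithin_le_nhds
  have hev : ∀ i, ∀ᶠ u in 𝓝[>] t, K * (u - t) < g i := fun i =>
    htend.eventually (Iio_mem_nhds (hg i))
  have hev2 : ∀ᶠ u in 𝓝[>] t, K * (u - t) < h := htend.eventually (Iio_mem_nhds hh)
  filter_upwards [eventually_all.2 hev, hev2, self_mem_nhdsWithin] with u h1 h2 hu hu1
  have htu : t < u := hu
  have hu' : u ∈ Icc (0:ℝ) 1 := ⟨by linarith [ht.1], hu1⟩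
  obtain ⟨i0, hi0⟩ := hsurf u hu'
  have hd := habs u hu' htu.le i0
  have hti0 : |w t i0| = h := by
    by_contra hne
    have h3 := h1 i0
    simp only [g, if_neg hne] at h3
    have h4 : |(|w t i0| - h)| ≤ |w u i0 - w t i0| := by
      rw [← hi0, abs_sub_comm (w u i0) (w t i0)]
      exact abs_abs_sub_abs_le _ _
    linarith
  have heq : w u i0 - w t i0 = 0 := by
    rcases abs_eq hh.le |>.mp hi0 with ha | ha <;> rcases abs_eq hh.le |>.mp hti0 with hb | hb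
    · rw [ha, hb]; ring
    · exfalso
      rw [ha, hb] at hd
      have : |h - -h| = 2 * h := by rw [abs_of_pos (by linarith)]; ring
      linarith
    · exfalso
      rw [ha, hb] at hd
      have : |(-h) - h| = 2 * h := by rw [abs_of_neg (by linarith)]; ring
      linarith
    · rw [ha, hb]; ring
  have hi0A : i0 ∈ A := (hA i0).mpr ⟨u, hu', hi0⟩
  rw [← Finset.add_sum_erase A _ hi0A, heq, abs_zero, zero_add]
  have hcs := sq_sum_le_card_mul_sum_sq (s := A.erase i0) (f := fun i => |w u i - w t i|)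
  have hsum : ∑ i ∈ A.erase i0, |w u i - w t i| ^ 2 ≤ (K * (u - t)) ^ 2 := by
    refine le_trans ?_ (hlip t ht' u hu')
    simp only [sq_abs]
    exact Finset.sum_le_sum_of_subset_of_nonneg (Finset.subset_univ _) (fun i _ _ => sq_nonneg _)
  have hcard : ((A.erase i0).card : ℝ) = (A.card : ℝ) - 1 := by
    rw [Finset.card_erase_of_mem hi0A, Nat.cast_sub (Finset.card_pos.mpr ⟨i0, hi0A⟩)]
    simp
  have hc0 : 0 ≤ (A.card : ℝ) - 1 := by rw [← hcard]; exact Nat.cast_nonneg _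
  have hKu : 0 ≤ K * (u - t) := mul_nonneg hK (by linarith)
  have hfin : (∑ i ∈ A.erase i0, |w u i - w t i|) ^ 2 ≤ (Real.sqrt ((A.card : ℝ) - 1) * (K * (u - t))) ^ 2 := by
    rw [mul_pow, Real.sq_sqrt hc0]
    refine hcs.trans ?_
    rw [hcard]
    exact mul_le_mul_of_nonneg_left hsum hc0
  have h5 := abs_le_of_sq_le_sq hfin (mul_nonneg (Real.sqrt_nonneg _) hKu)
  rw [mul_assoc]
  exact (le_abs_self _).trans h5

end JLocal


namespace JCurve

theorem curve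
    (ind : ∀ (φ : ℝ → ℝ) (c : ℝ), ContinuousOn φ (Icc (0:ℝ) 1) → φ 0 ≤ 0 →
      (∀ t ∈ Ico (0:ℝ) 1, ∀ᶠ u in 𝓝[>] t, u ≤ 1 → φ u - φ t ≤ c * (u - t)) → φ 1 ≤ c)
    (curveLocal : ∀ (w : ℝ → Fin 3 → ℝ) (K h : ℝ), 0 < h → 0 ≤ K →
      (∀ t ∈ Icc (0:ℝ) 1, ∀ u ∈ Icc (0:ℝ) 1, ∑ i, (w u i - w t i) ^ 2 ≤ (K * (u - t)) ^ 2) →
      (∀ t ∈ Icc (0:ℝ) 1, ∃ i, |w t i| = h) →
      ∀ (A : Finset (Fin 3)), (∀ i, i ∈ A ↔ ∃ t ∈ Icc (0:ℝ) 1, |w t i| = h) →
      ∀ t ∈ Ico (0:ℝ) 1, ∀ᶠ u in 𝓝[>] t, u ≤ 1 →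
        ∑ i ∈ A, |w u i - w t i| ≤ Real.sqrt ((A.card : ℝ) - 1) * K * (u - t))
    (w : ℝ → Fin 3 → ℝ) (K h : ℝ) (hh : 0 < h) (hK : 0 ≤ K)
    (hlip : ∀ t ∈ Icc (0:ℝ) 1, ∀ u ∈ Icc (0:ℝ) 1, ∑ i, (w u i - w t i) ^ 2 ≤ (K * (u - t)) ^ 2)
    (hsurf : ∀ t ∈ Icc (0:ℝ) 1, ∃ i, |w t i| = h)
    (hanti : ∀ i, w 1 i = - w 0 i) : 4 * h ≤ K := by
  classical
  set A : Finset (Fin 3) := Finset.univ.filter (fun i => ∃ t ∈ Icc (0:ℝ) 1, |w t i| = h) with hA
  have hAmem : ∀ i, i ∈ A ↔ ∃ t ∈ Icc (0:ℝ) 1, |w t i| = h := by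
    intro i; simp [hA]
  have hex : ∀ i, ∃ τ : ℝ, τ ∈ Icc (0:ℝ) 1 ∧ (i ∈ A → |w τ i| = h) := by
    intro i
    by_cases hi : i ∈ A
    · obtain ⟨t, ht, hth⟩ := (hAmem i).1 hi
      exact ⟨t, ht, fun _ => hth⟩
    · exact ⟨0, ⟨le_refl _, zero_le_one⟩, fun h' => absurd h' hi⟩
  choose τ hτI hτh using hex
  have hloc := curveLocal w K h hh hK hlip hsurf A hAmem
  -- each coordinate is Lipschitz on [0,1]
  have hcoord : ∀ i, ∀ t ∈ Icc (0:ℝ) 1, ∀ u ∈ Icc (0:ℝ) 1, |w u i - w t i| ≤ K * |u - t| := by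
    intro i t ht u hu
    have h1 := hlip t ht u hu
    have h2 : (w u i - w t i) ^ 2 ≤ ∑ j, (w u j - w t j) ^ 2 :=
      Finset.single_le_sum (f := fun j => (w u j - w t j) ^ 2) (fun j _ => sq_nonneg _)
        (Finset.mem_univ i)
    have h3 : (w u i - w t i) ^ 2 ≤ (K * |u - t|) ^ 2 := by
      rw [mul_pow, sq_abs, ← mul_pow]; linarith
    exact abs_le_of_sq_le_sq h3 (mul_nonneg hK (abs_nonneg _))
  have hcont : ∀ i, ContinuousOn (fun t => w t i) (Icc (0:ℝ) 1) := by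
    intro i
    have hL : LipschitzOnWith (Real.toNNReal K) (fun t => w t i) (Icc (0:ℝ) 1) := by
      apply LipschitzOnWith.of_dist_le_mul
      intro x hx y hy
      rw [Real.dist_eq, Real.dist_eq, Real.coe_toNNReal K hK]
      exact hcoord i y hy x hx
    exact hL.continuousOn
  let G : ℝ → ℝ := fun t => ∑ i ∈ A, (|w (min t (τ i)) i - w 0 i| + |w t i - w (min t (τ i)) i|)
  have hG0 : G 0 ≤ 0 := by
    refine le_of_eq (Finset.sum_eq_zero fun i _ => ?_)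
    rw [min_eq_left (hτI i).1]
    simp
  have hGc : ContinuousOn G (Icc (0:ℝ) 1) := by
    refine continuousOn_finset_sum _ fun i _ => ?_
    have hmin : ContinuousOn (fun t => w (min t (τ i)) i) (Icc (0:ℝ) 1) := by
      refine (hcont i).comp (continuous_id.min continuous_const).continuousOn ?_
      intro t ht
      exact ⟨le_min ht.1 (hτI i).1, (min_le_left _ _).trans ht.2⟩
    exact ((hmin.sub continuousOn_const).abs).add (((hcont i).sub hmin).abs)
  have hGl : ∀ t ∈ Ico (0:ℝ) 1, ∀ᶠ u in 𝓝[>] t, u ≤ 1 →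
      G u - G t ≤ (Real.sqrt ((A.card : ℝ) - 1) * K) * (u - t) := by
    intro t ht
    have hev : ∀ᶠ u in 𝓝[>] t, ∀ i, τ i ≤ t ∨ u < τ i := by
      rw [Filter.eventually_all]
      intro i
      by_cases hi : τ i ≤ t
      · exact Filter.Eventually.of_forall fun _ => Or.inl hi
      · have : Iio (τ i) ∈ 𝓝[>] t := mem_nhdsWithin_of_mem_nhds (Iio_mem_nhds (not_le.1 hi))
        exact Filter.eventually_of_mem this fun u hu => Or.inr hu
    filter_upwards [hev, hloc t ht, self_mem_nhdsWithin] with u hu1 hu2 hu3 hu4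
    have hu3' : t < u := hu3
    refine le_trans ?_ (hu2 hu4)
    show (∑ i ∈ A, (|w (min u (τ i)) i - w 0 i| + |w u i - w (min u (τ i)) i|)) -
      (∑ i ∈ A, (|w (min t (τ i)) i - w 0 i| + |w t i - w (min t (τ i)) i|)) ≤ _
    rw [← Finset.sum_sub_distrib]
    refine Finset.sum_le_sum fun i _ => ?_
    rcases hu1 i with h1 | h1
    · rw [min_eq_right h1, min_eq_right (h1.trans hu3'.le)]
      have := abs_sub_abs_le_abs_sub (w u i - w (τ i) i) (w t i - w (τ i) i)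
      have e : w u i - w (τ i) i - (w t i - w (τ i) i) = w u i - w t i := by ring
      rw [e] at this
      linarith
    · rw [min_eq_left h1.le, min_eq_left (hu3'.trans h1).le]
      have := abs_sub_abs_le_abs_sub (w u i - w 0 i) (w t i - w 0 i)
      have e : w u i - w 0 i - (w t i - w 0 i) = w u i - w t i := by ring
      rw [e] at this
      simp only [sub_self, abs_zero, add_zero]
      linarith
  have hG1 : G 1 ≤ Real.sqrt ((A.card : ℝ) - 1) * K := ind G _ hGc hG0 hGl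
  have hlow : 2 * h * (A.card : ℝ) ≤ G 1 := by
    have : ∑ i ∈ A, (2 * h) ≤ G 1 := by
      refine Finset.sum_le_sum fun i hi => ?_
      rw [min_eq_right (hτI i).2]
      have h1 := hτh i hi
      have h2 : 2 * |w (τ i) i| = |(w (τ i) i - w 0 i) - (w 1 i - w (τ i) i)| := by
        rw [hanti i]
        have : w (τ i) i - w 0 i - (-w 0 i - w (τ i) i) = 2 * w (τ i) i := by ring
        rw [this, abs_mul, abs_of_pos (by norm_num : (0:ℝ) < 2)]
      have h3 := abs_sub (w (τ i) i - w 0 i) (w 1 i - w (τ i) i)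
      rw [← h1]
      linarith
    rw [Finset.sum_const, nsmul_eq_mul] at this
    linarith
  have hAne : A.Nonempty := by
    obtain ⟨i, hi⟩ := hsurf 0 ⟨le_refl _, zero_le_one⟩
    exact ⟨i, (hAmem i).2 ⟨0, ⟨le_refl _, zero_le_one⟩, hi⟩⟩
  have hpos : 1 ≤ A.card := hAne.card_pos
  have h3 : A.card ≤ 3 := by
    have := Finset.card_le_univ A
    simpa using this
  have hfin : 2 * h * (A.card : ℝ) ≤ Real.sqrt ((A.card : ℝ) - 1) * K := hlow.trans hG1
  generalize A.card = m at hpos h3 hfin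
  interval_cases m
  · norm_num at hfin
    linarith
  · norm_num at hfin
    linarith
  · have h2 : ((3 : ℕ) : ℝ) - 1 = 2 := by norm_num
    rw [h2] at hfin
    have hs : Real.sqrt 2 ≤ 3 / 2 := by
      rw [Real.sqrt_le_left (by norm_num)]; norm_num
    have := mul_le_mul_of_nonneg_right hs hK
    push_cast at hfin
    linarith

end JCurve


namespace JMain

theorem main
    (nonexp : ∀ (x y s : ℝ) (f : EuclideanSpace ℝ (Fin 2) → EuclideanSpace ℝ (Fin 3)),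
      Wraps x y s f → ∀ a ∈ paper x y, ∀ b ∈ paper x y, dist (f a) (f b) ≤ dist a b)
    (curve : ∀ (w : ℝ → Fin 3 → ℝ) (K h : ℝ), 0 < h → 0 ≤ K →
      (∀ t ∈ Icc (0:ℝ) 1, ∀ u ∈ Icc (0:ℝ) 1, ∑ i, (w u i - w t i) ^ 2 ≤ (K * (u - t)) ^ 2) →
      (∀ t ∈ Icc (0:ℝ) 1, ∃ i, |w t i| = h) → (∀ i, w 1 i = - w 0 i) → 4 * h ≤ K)
    {x y s : ℝ} (hx : 0 < x) (hy : 0 < y) (hs : 0 < s)
    {f : EuclideanSpace ℝ (Fin 2) → EuclideanSpace ℝ (Fin 3)}
    (h : Wraps x y s f) : s ≤ Real.sqrt (x ^ 2 + y ^ 2) / 4 := by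
  set c : EuclideanSpace ℝ (Fin 2) := !₂[x/2, y/2] with hc
  have hc0 : c 0 = x / 2 := by simp [hc]
  have hc1 : c 1 = y / 2 := by simp [hc]
  have hcm : c ∈ paper x y := by
    refine ⟨?_, ?_, ?_, ?_⟩ <;> simp only [hc0, hc1] <;> linarith
  have hP : f c ∈ cubeSurface s := by rw [← h.onto]; exact mem_image_of_mem f hcm
  have hP' : (WithLp.toLp 2 (fun i => s - f c i) : EuclideanSpace ℝ (Fin 3)) ∈ cubeSurface s := by
    refine ⟨fun i => ?_, ?_⟩
    · have := hP.1 i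
      constructor
      · change 0 ≤ s - f c i
        linarith [this.2]
      · change s - f c i ≤ s
        linarith [this.1]
    · obtain ⟨i, hi⟩ := hP.2
      refine ⟨i, ?_⟩
      change s - f c i = 0 ∨ s - f c i = s
      rcases hi with hi | hi
      · right; rw [hi]; ring
      · left; rw [hi]; ring
  rw [← h.onto] at hP'
  obtain ⟨q, hq, hfq⟩ := hP'
  set z : ℝ → EuclideanSpace ℝ (Fin 2) := fun t => c + t • (q - c) with hz
  have hz0 : z 0 = c := by simp [hz]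
  have hz1 : z 1 = q := by simp [hz]
  have hzi : ∀ t i, z t i = c i + t * (q i - c i) := by
    intro t i; simp [hz]
  have hzm : ∀ t ∈ Icc (0:ℝ) 1, z t ∈ paper x y := by
    intro t ht
    obtain ⟨a1, a2, a3, a4⟩ := hcm
    obtain ⟨b1, b2, b3, b4⟩ := hq
    refine ⟨?_, ?_, ?_, ?_⟩ <;> rw [hzi]
    · have : c 0 + t * (q 0 - c 0) = (1 - t) * c 0 + t * q 0 := by ring
      rw [this]
      have := mul_nonneg (sub_nonneg.2 ht.2) a1
      have := mul_nonneg ht.1 b1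
      linarith
    · have e : x - (c 0 + t * (q 0 - c 0)) = (1 - t) * (x - c 0) + t * (x - q 0) := by ring
      have := mul_nonneg (sub_nonneg.2 ht.2) (sub_nonneg.2 a2)
      have := mul_nonneg ht.1 (sub_nonneg.2 b2)
      linarith
    · have : c 1 + t * (q 1 - c 1) = (1 - t) * c 1 + t * q 1 := by ring
      rw [this]
      have := mul_nonneg (sub_nonneg.2 ht.2) a3
      have := mul_nonneg ht.1 b3
      linarith
    · have e : y - (c 1 + t * (q 1 - c 1)) = (1 - t) * (y - c 1) + t * (y - q 1) := by ring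
      have := mul_nonneg (sub_nonneg.2 ht.2) (sub_nonneg.2 a4)
      have := mul_nonneg ht.1 (sub_nonneg.2 b4)
      linarith
  have key := curve (fun t i => f (z t) i - s / 2) (dist c q) (s / 2) (by linarith) dist_nonneg
    ?_ ?_ ?_
  · have h1 : dist c q ≤ Real.sqrt (x ^ 2 + y ^ 2) / 2 := by
      have e : Real.sqrt (x ^ 2 + y ^ 2) / 2 = Real.sqrt ((x ^ 2 + y ^ 2) / 4) := by
        rw [Real.sqrt_div' _ (by norm_num : (0:ℝ) ≤ 4)]
        have : Real.sqrt 4 = 2 := by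
          rw [show (4:ℝ) = 2 ^ 2 by norm_num]; exact Real.sqrt_sq (by norm_num)
        rw [this]
      rw [e, EuclideanSpace.dist_eq, Fin.sum_univ_two, Real.dist_eq, Real.dist_eq, sq_abs, sq_abs,
        hc0, hc1]
      apply Real.sqrt_le_sqrt
      obtain ⟨b1, b2, b3, b4⟩ := hq
      nlinarith [mul_nonneg b1 (sub_nonneg.2 b2), mul_nonneg b3 (sub_nonneg.2 b4)]
    linarith
  · intro t ht u hu
    have h1 := nonexp x y s f h (z u) (hzm u hu) (z t) (hzm t ht)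
    have h2 : dist (z u) (z t) = |u - t| * dist c q := by
      rw [dist_eq_norm, dist_comm c q, dist_eq_norm]
      have : z u - z t = (u - t) • (q - c) := by
        simp only [hz]; module
      rw [this, norm_smul, Real.norm_eq_abs]
    have h3 : ∑ i, (f (z u) i - f (z t) i) ^ 2 = dist (f (z u)) (f (z t)) ^ 2 := by
      rw [EuclideanSpace.dist_eq, Real.sq_sqrt (Finset.sum_nonneg fun i _ => sq_nonneg _)]
      refine Finset.sum_congr rfl fun i _ => ?_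
      rw [Real.dist_eq, sq_abs]
    have h4 : ∑ i, ((fun t i => f (z t) i - s / 2) u i - (fun t i => f (z t) i - s / 2) t i) ^ 2
        = ∑ i, (f (z u) i - f (z t) i) ^ 2 := by
      refine Finset.sum_congr rfl fun i _ => ?_
      simp only
      ring
    rw [h4, h3]
    have h5 : (dist c q * (u - t)) ^ 2 = (|u - t| * dist c q) ^ 2 := by
      rw [mul_pow, mul_pow, sq_abs]; ring
    rw [h5, ← h2]
    exact pow_le_pow_left₀ dist_nonneg h1 2
  · intro t ht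
    have h1 : f (z t) ∈ cubeSurface s := by rw [← h.onto]; exact mem_image_of_mem f (hzm t ht)
    obtain ⟨i, hi⟩ := h1.2
    refine ⟨i, ?_⟩
    simp only
    rcases hi with hi | hi
    · rw [hi, zero_sub, abs_neg, abs_of_pos (by linarith)]
    · rw [hi, abs_of_pos (by linarith)]; ring
  · intro i
    simp only [hz0, hz1, hfq]
    ring

end JMain


theorem nonexp {x y s : ℝ} {f : EuclideanSpace ℝ (Fin 2) → EuclideanSpace ℝ (Fin 3)}
    (h : Wraps x y s f) (a : EuclideanSpace ℝ (Fin 2)) (ha : a ∈ paper x y)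
    (b : EuclideanSpace ℝ (Fin 2)) (hb : b ∈ paper x y) : dist (f a) (f b) ≤ dist a b :=
  JNonexp.nonexp (fun φ c h1 h2 h3 => JInd.ind φ c h1 h2 h3)
    (fun _ hF hcl z hz t hcov => JPiece.samePiece hF hcl z hz t hcov) h a ha b hb

theorem curve (w : ℝ → Fin 3 → ℝ) (K h : ℝ) (hh : 0 < h) (hK : 0 ≤ K)
    (hlip : ∀ t ∈ Icc (0:ℝ) 1, ∀ u ∈ Icc (0:ℝ) 1, ∑ i, (w u i - w t i) ^ 2 ≤ (K * (u - t)) ^ 2)
    (hsurf : ∀ t ∈ Icc (0:ℝ) 1, ∃ i, |w t i| = h)
    (hanti : ∀ i, w 1 i = - w 0 i) : 4 * h ≤ K :=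
  JCurve.curve (fun φ c h1 h2 h3 => JInd.ind φ c h1 h2 h3)
    (fun w K h hh hK hlip hsurf A hA t ht =>
      JLocal.curveLocal w K h hh hK hlip hsurf A hA t ht)
    w K h hh hK hlip hsurf hanti

theorem main {x y s : ℝ} (hx : 0 < x) (hy : 0 < y) (hs : 0 < s)
    {f : EuclideanSpace ℝ (Fin 2) → EuclideanSpace ℝ (Fin 3)}
    (h : Wraps x y s f) : s ≤ Real.sqrt (x ^ 2 + y ^ 2) / 4 :=
  JMain.main (fun _ _ _ _ hw a ha b hb => nonexp hw a ha b hb)
    (fun w K h hh hK hlip hsurf hanti => curve w K h hh hK hlip hsurf hanti) hx hy hs h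

theorem all :
    (∀ x y s : ℝ, 0 < x → x ≤ y → 0 < s → (∃ f, Wraps x y s f) →
      s ≤ Real.sqrt (x ^ 2 + y ^ 2) / 4) ∧
    (∀ r : ℝ, 1 ≤ r → sigma r ≤ Real.sqrt (1 + r ^ 2) / 4) ∧
    (∀ r : ℝ, 1 ≤ r → r ≤ 2.215 → Real.sqrt (1 + r ^ 2) / 4 < Real.sqrt (r / 6)) := by
  refine ⟨?_, ?_, ?_⟩
  · rintro x y s hx hxy hs ⟨f, hf⟩
    exact main hx (hx.trans_le hxy) hs hf
  · intro r hr
    apply Real.sSup_le
    · rintro s ⟨hs, f, hf⟩
      have := main one_pos (one_pos.trans_le hr) hs hf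
      simpa using this
    · positivity
  · intro r hr hr2
    have e : Real.sqrt (1 + r ^ 2) / 4 = Real.sqrt ((1 + r ^ 2) / 16) := by
      rw [Real.sqrt_div (by positivity)]
      norm_num
    rw [e]
    apply Real.sqrt_lt_sqrt (by positivity)
    nlinarith

end Pool.Agent.Helper808.Cube
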